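import Pool.Agent.H7.ABCD.Pigeon

/-!
# Choice of the parameters
-/

open Finset Filter Real

namespace Pool.Agent.H7.ABCD

/-- The odd primes up to `y`. -/
def oddPrimes (y : ℕ) : Finset ℕ := (Nat.primesLE y).erase 2

theorem mem_oddPrimes {y q : ℕ} : q ∈ oddPrimes y ↔ q ≠ 2 ∧ q ≤ y ∧ q.Prime := by
  rw [oddPrimes, mem_erase, Nat.mem_primesLE]

theorem card_oddPrimes_ge (y : ℕ) :
    ((y : ℝ) * log 2 - log (y + 1)) / log y - 1 ≤ (oddPrimes y).card := by
  have h1 := Chebyshev.pi_ge y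
  have h2 : Nat.primeCounting y ≤ (oddPrimes y).card + 1 := by
    have h3 : Nat.primeCounting y = (Nat.primesLE y).card := by
      rw [← Nat.primesLE_card_eq_primeCounting]
    have h5 : (Nat.primesLE y).card - 1 ≤ ((Nat.primesLE y).erase 2).card :=
      pred_card_le_card_erase
    rw [h3, oddPrimes]
    omega
  have h4 : (Nat.primeCounting y : ℝ) ≤ (oddPrimes y).card + 1 := by exact_mod_cast h2
  linarith

theorem eventually_card_oddPrimes : ∀ᶠ y : ℕ in atTop,
    (y : ℝ) / (2 * log y) ≤ (oddPrimes y).card := by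
  have h1 : ∀ᶠ x : ℝ in atTop, log x ≤ (1 / 32 : ℝ) * x := by
    have := isLittleO_log_id_atTop.bound (show (0 : ℝ) < 1 / 32 by norm_num)
    filter_upwards [this, eventually_ge_atTop (1 : ℝ)] with x hx hx1
    rw [norm_of_nonneg (log_nonneg hx1), id, norm_of_nonneg (by linarith)] at hx
    exact hx
  have h2 := tendsto_natCast_atTop_atTop (R := ℝ) |>.eventually h1
  have h3 : ∀ᶠ y : ℕ in atTop, log ((y : ℝ) + 1) ≤ (1 / 32 : ℝ) * ((y : ℝ) + 1) :=
    (tendsto_atTop_add_const_right _ (1 : ℝ)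
      (tendsto_natCast_atTop_atTop (R := ℝ))).eventually h1
  filter_upwards [h2, h3, eventually_ge_atTop 3] with y hy1 hy2 hy3
  refine le_trans ?_ (card_oddPrimes_ge y)
  have hy : (3 : ℝ) ≤ y := by exact_mod_cast hy3
  have hlog : 0 < log y := log_pos (by linarith)
  have hl2 : (0.69 : ℝ) < log 2 := by linarith [log_two_gt_d9]
  rw [le_sub_iff_add_le, div_add' _ _ _ (by positivity), div_le_div_iff₀ (by positivity) hlog]
  have h5 : (y : ℝ) * 0.69 ≤ y * log 2 := mul_le_mul_of_nonneg_left hl2.le (by linarith)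
  have h6 : (y : ℝ) + 1 * (2 * log y) ≤ (y * log 2 - log (y + 1)) * 2 := by nlinarith
  calc ((y : ℝ) + 1 * (2 * log y)) * log y ≤ ((y * log 2 - log (y + 1)) * 2) * log y :=
        mul_le_mul_of_nonneg_right h6 hlog.le
    _ = (y * log 2 - log (y + 1)) * (2 * log y) := by ring

/-- The final comparison. -/
theorem final_compare {m : ℕ} (hm : 1 ≤ m) {y r h : ℝ} (hy : 3 ≤ y) (hr : y / (2 * log y) ≤ r)
    (h8 : exp 2 ≤ h) (hh : h ≤ m * (2 * exp 1 * y ^ (1 / (m : ℝ)) * r * log y)) :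
    (1 / 6) * (h ^ ((m : ℝ) / (m + 1)) / log h) ≤ 0.91 * m * r := by
  have hm' : (1 : ℝ) ≤ m := by exact_mod_cast hm
  have hlogy : 1 ≤ log y := by
    rw [le_log_iff_exp_le (by linarith)]
    linarith [exp_one_lt_d9]
  set X : ℝ := m * (2 * exp 1 * y ^ (1 / (m : ℝ)) * r * log y) with hX
  set α : ℝ := (m : ℝ) / (m + 1) with hα
  have hα0 : 0 < α := by positivity
  have hα1 : α ≤ 1 := by rw [hα, div_le_one (by positivity)]; linarith
  have hαh : 1 / 2 ≤ α := by
    rw [hα, div_le_div_iff₀ (by norm_num) (by positivity)]; linarith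
  set D : ℝ := 2 * r * log y with hD
  have hyD : y ≤ D := by
    rw [div_le_iff₀ (by positivity)] at hr
    rw [hD]; linarith
  have hD0 : 0 < D := by linarith
  have hr0 : 0 < r := by
    have : 0 < y / (2 * log y) := by positivity
    linarith
  -- monotonicity
  have hinv : exp α⁻¹ ≤ exp 2 := by
    rw [exp_le_exp, inv_le_comm₀ hα0 (by norm_num)]
    linarith
  have hXh : exp α⁻¹ ≤ X := (hinv.trans h8).trans hh
  have hmono := log_div_self_rpow_antitoneOn hα0 (Set.mem_Ici.mpr (hinv.trans h8))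
    (Set.mem_Ici.mpr hXh) hh
  simp only at hmono
  have hh1 : 1 < h := lt_of_lt_of_le (by
    have := add_one_lt_exp (show (2 : ℝ) ≠ 0 by norm_num)
    linarith) h8
  have hX1 : 1 < X := lt_of_lt_of_le hh1 hh
  have hlogh : 0 < log h := log_pos hh1
  have hlogX : 0 < log X := log_pos hX1
  have hpowh : 0 < h ^ α := rpow_pos_of_pos (by linarith) _
  have hpowX : 0 < X ^ α := rpow_pos_of_pos (by linarith) _
  have hmono' : h ^ α / log h ≤ X ^ α / log X := by
    rw [div_le_div_iff₀ hpowX hpowh] at hmono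
    rw [div_le_div_iff₀ hlogh hlogX]
    linarith
  -- upper bound of `X ^ α`
  have hme : 1 ≤ (m : ℝ) * exp 1 := by
    have := add_one_lt_exp (show (1 : ℝ) ≠ 0 by norm_num)
    nlinarith
  have hXle : X ≤ (m * exp 1) * D ^ (1 + 1 / (m : ℝ)) := by
    rw [rpow_add hD0, rpow_one, hX]
    have h1 : y ^ (1 / (m : ℝ)) ≤ D ^ (1 / (m : ℝ)) :=
      rpow_le_rpow (by linarith) hyD (by positivity)
    have h2 : (m : ℝ) * (2 * exp 1 * y ^ (1 / (m : ℝ)) * r * log y) =
        (m * exp 1) * (D * y ^ (1 / (m : ℝ))) := by rw [hD]; ring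
    rw [h2]
    gcongr
  have hXpow : X ^ α ≤ (m * exp 1) * D := by
    calc X ^ α ≤ ((m * exp 1) * D ^ (1 + 1 / (m : ℝ))) ^ α :=
          rpow_le_rpow (by linarith) hXle hα0.le
      _ = (m * exp 1) ^ α * D := by
          rw [mul_rpow (by positivity) (by positivity), ← rpow_mul hD0.le]
          have : (1 + 1 / (m : ℝ)) * α = 1 := by rw [hα]; field_simp
          rw [this, rpow_one]
      _ ≤ (m * exp 1) ^ (1 : ℝ) * D := by
          gcongr
      _ = (m * exp 1) * D := by rw [rpow_one]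
  -- lower bound of `log X`
  have hXge : y ^ (1 + 1 / (m : ℝ)) ≤ X := by
    rw [rpow_add (by linarith), rpow_one, hX]
    have h2 : (m : ℝ) * (2 * exp 1 * y ^ (1 / (m : ℝ)) * r * log y) =
        (m * exp 1) * (D * y ^ (1 / (m : ℝ))) := by rw [hD]; ring
    rw [h2]
    have h3 : y * y ^ (1 / (m : ℝ)) ≤ D * y ^ (1 / (m : ℝ)) := by gcongr
    have h4 : 0 ≤ D * y ^ (1 / (m : ℝ)) := by positivity
    nlinarith
  have hlogXge : (1 + 1 / (m : ℝ)) * log y ≤ log X := by
    rw [← log_rpow (by linarith)]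
    exact log_le_log (by positivity) hXge
  have hfin : X ^ α / log X ≤ 2 * exp 1 * m * r := by
    rw [div_le_iff₀ hlogX]
    have h5 : (m : ℝ) * exp 1 * D = 2 * exp 1 * m * r * log y := by rw [hD]; ring
    have h6 : log y ≤ log X := by
      have : log y ≤ (1 + 1 / (m : ℝ)) * log y := by
        have h7 : 0 ≤ 1 / (m : ℝ) := by positivity
        nlinarith
      linarith
    calc X ^ α ≤ m * exp 1 * D := hXpow
      _ = 2 * exp 1 * m * r * log y := h5
      _ ≤ 2 * exp 1 * m * r * log X := by gcongr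
  have he : exp 1 ≤ 2.72 := by linarith [exp_one_lt_d9]
  calc (1 / 6) * (h ^ α / log h) ≤ (1 / 6) * (2 * exp 1 * m * r) := by
        gcongr
        exact hmono'.trans hfin
    _ ≤ (1 / 6) * (2 * 2.72 * m * r) := by gcongr
    _ ≤ 0.91 * m * r := by nlinarith [mul_pos (show (0 : ℝ) < m by linarith) hr0]

theorem exists_params (m : ℕ) (hm : 1 ≤ m) (L : ℕ) (hL : 1 ≤ L) (B : ℝ) :
    ∃ (P : Finset ℕ) (E : {q // q ∈ P} → ℕ) (k : ℕ), (∀ q ∈ P, q.Prime ∧ q ≠ 2) ∧
      2 ^ k * (2 ^ (Fintype.card {q // q ∈ P} + 1) * L) < ∏ i, (E i + 1) ∧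
      ∀ h : ℝ, h ≤ m * log (pr (fun i : {q // q ∈ P} => (i : ℕ)) E) →
        m * (k * log 2) - log 2 - ∑ q ∈ P, log q ≤ h →
        B ≤ h ∧ (1 / 6) * (h ^ ((m : ℝ) / (m + 1)) / log h) ≤
          m * (k * log 2) - log 2 - ∑ q ∈ P, log q := by
  have hm' : (1 : ℝ) ≤ m := by exact_mod_cast hm
  have hL' : (1 : ℝ) ≤ L := by exact_mod_cast hL
  set C₁ : ℝ := m * (3 * log 2 + log L) + log 2 with hC₁
  -- choose `y`
  have htend : Tendsto (fun y : ℕ => (y : ℝ) / (2 * log y)) atTop atTop := by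
    have h1 : Tendsto (fun x : ℝ => x / log x) atTop atTop := by
      have h2 := tendsto_exp_div_pow_atTop 1
      have h3 := h2.comp tendsto_log_atTop
      refine h3.congr' ?_
      filter_upwards [eventually_gt_atTop (0 : ℝ)] with x hx
      simp [exp_log hx]
    have h2 : Tendsto (fun x : ℝ => (1 / 2) * (x / log x)) atTop atTop :=
      h1.const_mul_atTop (by norm_num)
    refine (h2.comp (tendsto_natCast_atTop_atTop (R := ℝ))).congr fun y => ?_
    simp only [Function.comp]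
    ring
  obtain ⟨y, hy1, hy2, hy3, hy4⟩ : ∃ y : ℕ, (y : ℝ) / (2 * log y) ≤ (oddPrimes y).card ∧
      (max (C₁ / (0.09 * m)) (max (|B| + C₁ + exp 2) (2 * log 2 + log L + 2))) ≤
        (y : ℝ) / (2 * log y) ∧ 3 ≤ y ∧ True := by
    obtain ⟨y, hy⟩ := ((eventually_card_oddPrimes.and ((tendsto_atTop.mp htend
      (max (C₁ / (0.09 * m)) (max (|B| + C₁ + exp 2) (2 * log 2 + log L + 2)))).and
      (eventually_ge_atTop 3)))).exists
    exact ⟨y, hy.1, hy.2.1, hy.2.2, trivial⟩
  set P := oddPrimes y with hP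
  set r : ℝ := (P.card : ℝ) with hr
  have hyr : (3 : ℝ) ≤ y := by exact_mod_cast hy3
  have hlogy : 1 ≤ log y := by
    rw [le_log_iff_exp_le (by linarith)]
    linarith [exp_one_lt_d9]
  have hl2 : 0 < log 2 := log_pos (by norm_num)
  have hlL : 0 ≤ log L := log_nonneg hL'
  have hrC : C₁ / (0.09 * m) ≤ r := (le_max_left _ _).trans (hy2.trans hy1)
  have hrB : |B| + C₁ + exp 2 ≤ r :=
    ((le_max_left _ _).trans (le_max_right _ _)).trans (hy2.trans hy1)
  have hrL : 2 * log 2 + log L + 2 ≤ r :=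
    ((le_max_right _ _).trans (le_max_right _ _)).trans (hy2.trans hy1)
  have hr1 : 1 ≤ r := by linarith
  have hr0 : 0 < r := by linarith
  set T : ℝ := 2 * exp 1 * (y : ℝ) ^ (1 / (m : ℝ)) * r * log y with hT
  have hT0 : 0 < T := by positivity
  have hPp : ∀ q ∈ P, q.Prime ∧ q ≠ 2 := fun q hq => by
    have := mem_oddPrimes.mp hq
    exact ⟨this.2.2, this.1⟩
  have hPle : ∀ q ∈ P, q ≤ y := fun q hq => (mem_oddPrimes.mp hq).2.1
  have hlogq : ∀ q ∈ P, 0 < log q := fun q hq =>
    log_pos (by exact_mod_cast (hPp q hq).1.one_lt)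
  have hlogqy : ∀ q ∈ P, log q ≤ log y := fun q hq =>
    log_le_log (by exact_mod_cast (hPp q hq).1.pos) (by exact_mod_cast hPle q hq)
  set E : {q // q ∈ P} → ℕ := fun i => ⌊T / (r * log (i : ℕ))⌋₊ with hE
  have hcard : Fintype.card {q // q ∈ P} = P.card := Fintype.card_coe P
  -- size of the box
  set N : ℕ := ∏ i, (E i + 1) with hN
  have hNpos : (0 : ℝ) < N := by
    have : 0 < N := Finset.prod_pos fun i _ => Nat.succ_pos _
    exact_mod_cast this
  have hWpos : (0 : ℝ) < 2 * exp 1 * (y : ℝ) ^ (1 / (m : ℝ)) := by positivity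
  have hNge : (2 * exp 1 * (y : ℝ) ^ (1 / (m : ℝ))) ^ P.card ≤ N := by
    rw [hN, Nat.cast_prod]
    have h1 : (2 * exp 1 * (y : ℝ) ^ (1 / (m : ℝ))) ^ P.card =
        ∏ _i : {q // q ∈ P}, (2 * exp 1 * (y : ℝ) ^ (1 / (m : ℝ))) := by
      rw [Finset.prod_const, card_univ, hcard]
    rw [h1]
    refine Finset.prod_le_prod (fun i _ => hWpos.le) fun i _ => ?_
    have h2 : T / (r * log y) = 2 * exp 1 * (y : ℝ) ^ (1 / (m : ℝ)) := by
      rw [hT]; field_simp
    rw [← h2]
    have h3 : T / (r * log y) ≤ T / (r * log (i : ℕ)) := by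
      have := hlogq i i.2
      have := hlogqy i i.2
      gcongr
    have h4 := (Nat.lt_floor_add_one (T / (r * log (i : ℕ)))).le
    push_cast
    exact h3.trans h4
  have hlogN : r * (log 2 + 1 + (1 / (m : ℝ)) * log y) ≤ log N := by
    have h1 := log_le_log (by positivity) hNge
    rw [log_pow, log_mul (by positivity) (by positivity), log_mul (by norm_num) (exp_pos _).ne',
      log_exp, log_rpow (by linarith)] at h1
    exact h1
  -- the exponent `k`
  set Q : ℕ := 2 ^ (P.card + 1) * L + 1 with hQ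
  have hQpos : (0 : ℝ) < Q := by rw [hQ]; positivity
  have hQle : log Q ≤ (r + 2) * log 2 + log L := by
    have h1 : Q ≤ 2 ^ (P.card + 2) * L := by
      rw [hQ, pow_succ 2 (P.card + 1)]
      have : 1 ≤ 2 ^ (P.card + 1) * L := Nat.one_le_iff_ne_zero.mpr (by positivity)
      linarith
    have h2 : (Q : ℝ) ≤ 2 ^ (P.card + 2) * L := by exact_mod_cast h1
    have h3 := log_le_log hQpos h2
    rw [log_mul (by positivity) (by positivity), log_pow] at h3
    push_cast at h3
    exact h3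
  have hNQ : 1 ≤ (N : ℝ) / Q := by
    rw [one_le_div hQpos, ← log_le_log_iff hQpos hNpos]
    refine hQle.trans (le_trans ?_ hlogN)
    have h1 : 0 ≤ r * ((1 / (m : ℝ)) * log y) := by positivity
    nlinarith
  obtain ⟨k, hk1, hk2⟩ := exists_nat_pow_near hNQ (show (1 : ℝ) < 2 by norm_num)
  have hklog : log N - log Q - log 2 ≤ k * log 2 := by
    have h1 := log_le_log (by positivity) hk2.le
    rw [log_div hNpos.ne' hQpos.ne', log_pow] at h1
    push_cast at h1
    linarith
  have hkN : 2 ^ k * (2 ^ (Fintype.card {q // q ∈ P} + 1) * L) < N := by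
    rw [le_div_iff₀ hQpos] at hk1
    have h1 : 2 ^ k * Q ≤ N := by exact_mod_cast hk1
    rw [hcard]
    refine lt_of_lt_of_le ?_ h1
    rw [hQ]
    exact Nat.mul_lt_mul_of_pos_left (Nat.lt_succ_self _) (by positivity)
  -- the gain
  have hsum : ∑ q ∈ P, log q ≤ r * log y := by
    calc ∑ q ∈ P, log (q : ℝ) ≤ ∑ _q ∈ P, log (y : ℝ) := Finset.sum_le_sum fun q hq => hlogqy q hq
      _ = r * log y := by rw [Finset.sum_const, nsmul_eq_mul]
  have hgain : m * r - C₁ ≤ m * (k * log 2) - log 2 - ∑ q ∈ P, log q := by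
    have h1 : r + r * ((1 / (m : ℝ)) * log y) - 3 * log 2 - log L ≤ k * log 2 := by
      have h2 : r * (log 2 + 1 + (1 / (m : ℝ)) * log y) =
        r * log 2 + r + r * ((1 / (m : ℝ)) * log y) := by ring
      linarith
    have h2 := mul_le_mul_of_nonneg_left h1 (show (0 : ℝ) ≤ m by linarith)
    have h3 : (m : ℝ) * (r + r * ((1 / (m : ℝ)) * log y) - 3 * log 2 - log L) =
        m * r + r * log y - m * (3 * log 2 + log L) := by
      field_simp
      ring
    rw [hC₁]
    linarith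
  -- the height
  have hpr : log (pr (fun i : {q // q ∈ P} => (i : ℕ)) E) ≤ T := by
    rw [pr, Nat.cast_prod, log_prod fun i _ => by
      have := (hPp i i.2).1.pos
      positivity]
    have h1 : ∀ i ∈ (univ : Finset {q // q ∈ P}), log (((i : ℕ) ^ E i : ℕ) : ℝ) ≤ T / r := by
      intro i _
      rw [Nat.cast_pow, log_pow]
      have h2 := hlogq i i.2
      have h3 : (E i : ℝ) ≤ T / (r * log (i : ℕ)) := Nat.floor_le (by positivity)
      calc (E i : ℝ) * log (i : ℕ) ≤ T / (r * log (i : ℕ)) * log (i : ℕ) := by gcongr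
        _ = T / r := by field_simp
    refine (Finset.sum_le_sum h1).trans ?_
    rw [Finset.sum_const, card_univ, hcard, nsmul_eq_mul]
    have : r * (T / r) = T := by field_simp
    exact this.le
  refine ⟨P, E, k, hPp, hkN, fun h hh1 hh2 => ?_⟩
  have hC₁0 : 0 ≤ C₁ := by rw [hC₁]; positivity
  have hmr : r ≤ m * r := by nlinarith
  have hh3 : |B| + exp 2 ≤ h := by linarith
  have hexp : 0 < exp 2 := exp_pos 2
  refine ⟨by linarith [le_abs_self B], ?_⟩
  have h1 := final_compare hm hyr (by rw [hr] at *; exact hy1) (h := h)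
    (by linarith [abs_nonneg B])
    (hh1.trans (mul_le_mul_of_nonneg_left hpr (by linarith)))
  refine h1.trans (le_trans ?_ hgain)
  rw [div_le_iff₀ (by positivity)] at hrC
  nlinarith

end Pool.Agent.H7.ABCD
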