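import Mathlib

/-!
# Height and radical of an integral point over a number field
-/

open NumberField Finset

namespace Pool.Agent.H7.ABCD

/-- The primes of `K` at which the orders of the coordinates are not all equal. -/
def badPrimes (K : Type*) [Field K] [NumberField K] {n : ℕ} (z : Fin n → K) :
    Set (IsDedekindDomain.HeightOneSpectrum (𝓞 K)) :=
  {v | ∃ i j, v.valuation K (z i) ≠ v.valuation K (z j)}

theorem prime_mem_of_int_mem {K : Type*} [Field K] [NumberField K]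
    (v : IsDedekindDomain.HeightOneSpectrum (𝓞 K)) {z : ℤ} (hz : z ≠ 0)
    (h : (z : 𝓞 K) ∈ v.asIdeal) : ∃ q : ℕ, q.Prime ∧ (q : ℤ) ∣ z ∧ (q : 𝓞 K) ∈ v.asIdeal := by
  have h1 : ((z.natAbs : ℕ) : 𝓞 K) ∈ v.asIdeal := by
    rcases Int.natAbs_eq z with h2 | h2
    · rw [h2] at h; simpa using h
    · rw [h2] at h
      simpa using h
  have h2 : ∃ q ∈ z.natAbs.primeFactorsList, (q : 𝓞 K) ∈ v.asIdeal := by
    rw [← Nat.prod_primeFactorsList (Int.natAbs_ne_zero.mpr hz), Nat.cast_list_prod] at h1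
    have h3 := (v.isPrime.multiset_prod_mem_iff_exists_mem
      (z.natAbs.primeFactorsList.map (Nat.cast : ℕ → 𝓞 K) : Multiset (𝓞 K))).mp (by
        rw [Multiset.prod_coe]; exact h1)
    obtain ⟨y, hy, hyv⟩ := h3
    rw [Multiset.mem_coe, List.mem_map] at hy
    obtain ⟨q, hq, rfl⟩ := hy
    exact ⟨q, hq, hyv⟩
  obtain ⟨q, hq, hqv⟩ := h2
  refine ⟨q, Nat.prime_of_mem_primeFactorsList hq, ?_, hqv⟩
  have := Nat.dvd_of_mem_primeFactorsList hq
  exact Int.natCast_dvd.mpr this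

theorem rad_le {K : Type*} [Field K] [NumberField K] {n : ℕ} (z : Fin n → ℤ) (hz : ∀ i, z i ≠ 0)
    (R : Finset ℕ) (hRp : ∀ q ∈ R, q.Prime)
    (hR : ∀ q : ℕ, q.Prime → ∀ i, (q : ℤ) ∣ z i → q ∈ R) :
    (∑ᶠ v ∈ badPrimes K (fun i => (z i : K)), Real.log (Ideal.absNorm v.asIdeal)) ≤
      Module.finrank ℚ K * ∑ q ∈ R, Real.log q := by
  classical
  set M : ℕ := ∏ q ∈ R, q with hM
  have hM0 : M ≠ 0 := Finset.prod_ne_zero_iff.mpr fun q hq => (hRp q hq).ne_zero
  have hMK : (M : 𝓞 K) ≠ 0 := by exact_mod_cast hM0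
  have hspan : Ideal.span {(M : 𝓞 K)} ≠ 0 := by
    rw [Ideal.zero_eq_bot, Ne, Ideal.span_singleton_eq_bot]; exact hMK
  -- bad primes contain `M`
  have hbad : ∀ v ∈ badPrimes K (fun i => (z i : K)), v.asIdeal ∣ Ideal.span {(M : 𝓞 K)} := by
    rintro v ⟨i, j, hij⟩
    have hle : ∀ i, v.valuation K ((z i : ℤ) : K) ≤ 1 := fun i => by
      have := v.valuation_le_one (K := K) ((z i : ℤ) : 𝓞 K)
      simpa using this
    have hex : ∃ i, v.valuation K ((z i : ℤ) : K) < 1 := by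
      by_contra hcon
      push Not at hcon
      exact hij ((le_antisymm (hle i) (hcon i)).trans (le_antisymm (hle j) (hcon j)).symm)
    obtain ⟨i, hi⟩ := hex
    have hmem : ((z i : ℤ) : 𝓞 K) ∈ v.asIdeal := by
      have h1 := (v.valuation_lt_one_iff_mem (K := K) ((z i : ℤ) : 𝓞 K)).mp (by simpa using hi)
      exact h1
    obtain ⟨q, hq, hqz, hqv⟩ := prime_mem_of_int_mem v (hz i) hmem
    have hqR := hR q hq i hqz
    rw [Ideal.dvd_span_singleton]
    have hqM : q ∣ M := Finset.dvd_prod_of_mem _ hqR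
    obtain ⟨t, ht⟩ := hqM
    rw [ht, Nat.cast_mul]
    exact Ideal.mul_mem_right _ _ hqv
  have hfin : (badPrimes K (fun i => (z i : K))).Finite :=
    (Ideal.finite_factors hspan).subset fun v hv => hbad v hv
  rw [finsum_mem_eq_finite_toFinset_sum _ hfin]
  set V := hfin.toFinset with hV
  have hNv : ∀ v : IsDedekindDomain.HeightOneSpectrum (𝓞 K), (Ideal.absNorm v.asIdeal : ℝ) ≠ 0 :=
    fun v => by
      have : Ideal.absNorm v.asIdeal ≠ 0 := by
        rw [Ne, Ideal.absNorm_eq_zero_iff]; exact v.ne_bot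
      exact_mod_cast this
  rw [← Real.log_prod fun v _ => hNv v]
  have hprod : ∏ v ∈ V, v.asIdeal ∣ Ideal.span {(M : 𝓞 K)} := by
    have hinj : Set.InjOn (fun v : IsDedekindDomain.HeightOneSpectrum (𝓞 K) => v.asIdeal) V :=
      fun v _ w _ h => IsDedekindDomain.HeightOneSpectrum.ext h
    have h1 : ∏ v ∈ V, v.asIdeal = ∏ I ∈ V.image (fun v => v.asIdeal), I := by
      rw [Finset.prod_image hinj]
    rw [h1]
    refine Finset.prod_primes_dvd _ ?_ ?_
    · intro I hI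
      obtain ⟨v, _, rfl⟩ := mem_image.mp hI
      exact v.prime
    · intro I hI
      obtain ⟨v, hv, rfl⟩ := mem_image.mp hI
      exact hbad v (hfin.mem_toFinset.mp hv)
  have hnorm : ∏ v ∈ V, Ideal.absNorm v.asIdeal ≤ M ^ Module.finrank ℚ K := by
    have h1 : Ideal.absNorm (∏ v ∈ V, v.asIdeal) ∣ Ideal.absNorm (Ideal.span {(M : 𝓞 K)}) :=
      map_dvd Ideal.absNorm hprod
    rw [map_prod] at h1
    have h2 : Ideal.absNorm (Ideal.span {(M : 𝓞 K)}) = M ^ Module.finrank ℚ K := by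
      rw [Ideal.absNorm_span_singleton]
      have h3 : Algebra.norm ℤ ((M : ℕ) : 𝓞 K) = (M : ℤ) ^ Module.finrank ℤ (𝓞 K) := by
        have := Algebra.norm_algebraMap (S := 𝓞 K) (M : ℤ)
        simpa using this
      rw [h3, Int.natAbs_pow, Int.natAbs_natCast, RingOfIntegers.rank]
    rw [h2] at h1
    exact Nat.le_of_dvd (pow_pos (Nat.pos_of_ne_zero hM0) _) h1
  have hpos : 0 < ∏ v ∈ V, (Ideal.absNorm v.asIdeal : ℝ) := by
    refine Finset.prod_pos fun v _ => ?_
    have h1 : (Ideal.absNorm v.asIdeal : ℝ) ≠ 0 := hNv v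
    positivity
  have hcast : ∏ v ∈ V, (Ideal.absNorm v.asIdeal : ℝ) ≤ (M : ℝ) ^ Module.finrank ℚ K := by
    exact_mod_cast hnorm
  refine (Real.log_le_log hpos hcast).trans ?_
  rw [Real.log_pow]
  refine mul_le_mul_of_nonneg_left ?_ (Nat.cast_nonneg _)
  rw [hM, Nat.cast_prod, Real.log_prod fun q hq => by
    exact_mod_cast (hRp q hq).ne_zero]

theorem logHeight_eq {K : Type*} [Field K] [NumberField K] {n : ℕ} (z : Fin n → ℤ) (i₀ i₁ : Fin n)
    (hcop : IsCoprime (z i₀) (z i₁)) (hpos : 0 < z i₀) (hle : ∀ j, |z j| ≤ z i₀) :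
    Height.logHeight (fun i => (z i : K)) = Module.finrank ℚ K * Real.log (z i₀) := by
  have hne : (fun i => (z i : K)) ≠ 0 := by
    intro h
    have := congrFun h i₀
    simp only [Pi.zero_apply, Int.cast_eq_zero] at this
    omega
  have hne' : (fun i => ((z i : ℤ) : 𝓞 K)) ≠ 0 := by
    intro h
    have := congrFun h i₀
    simp only [Pi.zero_apply, Int.cast_eq_zero] at this
    omega
  rw [Height.logHeight_eq_log_mulHeight, NumberField.mulHeight_eq hne]
  have hfinite : (∏ᶠ v : FinitePlace K, ⨆ i, v ((z i : ℤ) : K)) = 1 := by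
    have h1 := absNorm_mul_finprod_finitePlace_eq_one (K := K) hne'
    have h2 : Ideal.span (Set.range fun i => ((z i : ℤ) : 𝓞 K)) = ⊤ := by
      rw [Ideal.eq_top_iff_one]
      obtain ⟨a, b, hab⟩ := hcop
      have h3 : ((a : 𝓞 K) * ((z i₀ : ℤ) : 𝓞 K) + (b : 𝓞 K) * ((z i₁ : ℤ) : 𝓞 K)) = 1 := by
        exact_mod_cast congrArg (Int.cast : ℤ → 𝓞 K) hab
      rw [← h3]
      exact Ideal.add_mem _ (Ideal.mul_mem_left _ _ (Ideal.subset_span ⟨i₀, rfl⟩))
        (Ideal.mul_mem_left _ _ (Ideal.subset_span ⟨i₁, rfl⟩))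
    rw [h2, Ideal.absNorm_top, Nat.cast_one, one_mul] at h1
    simpa using h1
  have hinf : ∀ v : InfinitePlace K, (⨆ i, v ((z i : ℤ) : K)) = (z i₀ : ℝ) := by
    intro v
    have h1 : ∀ i, v ((z i : ℤ) : K) = |(z i : ℝ)| := by
      intro i
      rw [← InfinitePlace.norm_embedding_eq, map_intCast]
      simp
    simp only [h1]
    apply le_antisymm
    · have : Nonempty (Fin n) := ⟨i₀⟩
      refine ciSup_le fun i => ?_
      exact_mod_cast hle i
    · have h2 : |(z i₀ : ℝ)| = (z i₀ : ℝ) := abs_of_pos (by exact_mod_cast hpos)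
      rw [← h2]
      exact le_ciSup (f := fun i => |(z i : ℝ)|) (Set.finite_range _).bddAbove i₀
  rw [hfinite, mul_one]
  simp only [hinf]
  rw [Finset.prod_pow_eq_pow_sum, InfinitePlace.sum_mult_eq, Real.log_pow]

end Pool.Agent.H7.ABCD
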