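import Pool.Agent.H7.ABCD.Poly
import Pool.Agent.H7.ABCD.HeightRad

/-!
# The points of small radical
-/

open NumberField Finset

namespace Pool.Agent.H7.ABCD

/-- The integral point attached to `a` and `b`. -/
def pt {m : ℕ} (a b : Fin m → ℕ) : Fin (m + 2) → ℤ :=
  zOf (mix (fun l => (a l : ℤ)) (fun l => (b l : ℤ)))

section

variable {m : ℕ} {a b : Fin m → ℕ}

theorem pt_zero : pt a b 0 = ∏ l, (a l : ℤ) := by rw [pt, zOf_zero, mix_zero]

theorem pt_one : pt a b 1 = -∏ l, (b l : ℤ) := by rw [pt, zOf_one, mix_last]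

theorem pt_succ (i : Fin m) : pt a b i.succ.succ =
    (∏ l : Fin m with l.val < i.val, (b l : ℤ)) * (∏ l : Fin m with i.val < l.val, (a l : ℤ)) *
      ((b i : ℤ) - a i) := by rw [pt, zOf_succ_succ, mix_sub]

theorem pt_ne_zero (hb : ∀ l, 0 < b l) (hab : ∀ l, b l < a l) (j : Fin (m + 2)) :
    pt a b j ≠ 0 := by
  have ha : ∀ l, (a l : ℤ) ≠ 0 := fun l => by have := hb l; have := hab l; omega
  have hb' : ∀ l, (b l : ℤ) ≠ 0 := fun l => by have := hb l; omega
  refine forall_fin_two (q := fun j => pt a b j ≠ 0) ?_ ?_ ?_ j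
  · rw [pt_zero]; exact Finset.prod_ne_zero_iff.mpr fun l _ => ha l
  · rw [pt_one, neg_ne_zero]; exact Finset.prod_ne_zero_iff.mpr fun l _ => hb' l
  · intro i
    rw [pt_succ]
    refine mul_ne_zero (mul_ne_zero (Finset.prod_ne_zero_iff.mpr fun l _ => hb' l)
      (Finset.prod_ne_zero_iff.mpr fun l _ => ha l)) ?_
    have := hab i
    omega

theorem pt_isCoprime (hcop : ∀ l l', Nat.Coprime (a l) (b l')) :
    IsCoprime (pt a b 0) (pt a b 1) := by
  rw [pt_zero, pt_one]
  refine IsCoprime.neg_right (IsCoprime.prod_left fun l _ => IsCoprime.prod_right fun l' _ => ?_)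
  exact Nat.isCoprime_iff_coprime.mpr (hcop l l')

theorem pt_abs_le (hb : ∀ l, 0 < b l) (hab : ∀ l, b l < a l) (j : Fin (m + 2)) :
    |pt a b j| ≤ pt a b 0 := by
  have ha : ∀ l, (0 : ℤ) ≤ a l := fun l => Int.natCast_nonneg _
  have hb' : ∀ l, (0 : ℤ) ≤ b l := fun l => Int.natCast_nonneg _
  have hle : ∀ l, (b l : ℤ) ≤ a l := fun l => by have := hab l; omega
  refine forall_fin_two (q := fun j => |pt a b j| ≤ pt a b 0) ?_ ?_ ?_ j
  · rw [pt_zero]; exact (abs_of_nonneg (Finset.prod_nonneg fun l _ => ha l)).le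
  · rw [pt_one, pt_zero, abs_neg, abs_of_nonneg (Finset.prod_nonneg fun l _ => hb' l)]
    exact Finset.prod_le_prod (fun l _ => hb' l) fun l _ => hle l
  · intro i
    rw [pt_succ, pt_zero, abs_mul, abs_mul,
      abs_of_nonneg (Finset.prod_nonneg fun l _ => hb' l),
      abs_of_nonneg (Finset.prod_nonneg fun l _ => ha l)]
    have h1 : |(b i : ℤ) - a i| ≤ a i := by
      have := hb i
      have := hab i
      rw [abs_le]; omega
    have h2 : (∏ l, (a l : ℤ)) = (∏ l : Fin m with l.val < i.val, (a l : ℤ)) *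
        (∏ l : Fin m with i.val < l.val, (a l : ℤ)) * a i := by
      rw [← Finset.prod_filter_mul_prod_filter_not (Finset.univ : Finset (Fin m))
        (fun l => l.val < i.val)]
      have h3 : (Finset.univ.filter fun l : Fin m => ¬ l.val < i.val) =
          insert i (Finset.univ.filter fun l : Fin m => i.val < l.val) := by
        ext l
        simp only [mem_filter, mem_univ, true_and, mem_insert, Fin.ext_iff]
        omega
      rw [h3, Finset.prod_insert (by simp)]
      ring
    rw [h2]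
    refine mul_le_mul (mul_le_mul_of_nonneg_right ?_ (Finset.prod_nonneg fun l _ => ha l)) h1
      (abs_nonneg _) (mul_nonneg (Finset.prod_nonneg fun l _ => ha l)
        (Finset.prod_nonneg fun l _ => ha l))
    exact Finset.prod_le_prod (fun l _ => hb' l) fun l _ => hle l

theorem prime_dvd_pt {q : ℕ} (hq : q.Prime) (j : Fin (m + 2)) (h : (q : ℤ) ∣ pt a b j) :
    (∃ l, q ∣ a l ∨ q ∣ b l) ∨ ∃ l, (q : ℤ) ∣ (a l : ℤ) - b l := by
  have hq' : Prime (q : ℤ) := Nat.prime_iff_prime_int.mp hq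
  revert h
  refine forall_fin_two (q := fun j => (q : ℤ) ∣ pt a b j → (∃ l, q ∣ a l ∨ q ∣ b l) ∨
    ∃ l, (q : ℤ) ∣ (a l : ℤ) - b l) ?_ ?_ ?_ j
  · intro h
    rw [pt_zero, hq'.dvd_finsetProd_iff] at h
    obtain ⟨l, _, hl⟩ := h
    exact Or.inl ⟨l, Or.inl (Int.natCast_dvd_natCast.mp hl)⟩
  · intro h
    rw [pt_one, dvd_neg, hq'.dvd_finsetProd_iff] at h
    obtain ⟨l, _, hl⟩ := h
    exact Or.inl ⟨l, Or.inr (Int.natCast_dvd_natCast.mp hl)⟩
  · intro i h
    rw [pt_succ] at h
    rcases hq'.dvd_or_dvd h with h | h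
    · rcases hq'.dvd_or_dvd h with h | h
      · rw [hq'.dvd_finsetProd_iff] at h
        obtain ⟨l, _, hl⟩ := h
        exact Or.inl ⟨l, Or.inr (Int.natCast_dvd_natCast.mp hl)⟩
      · rw [hq'.dvd_finsetProd_iff] at h
        obtain ⟨l, _, hl⟩ := h
        exact Or.inl ⟨l, Or.inl (Int.natCast_dvd_natCast.mp hl)⟩
    · refine Or.inr ⟨i, ?_⟩
      rw [← neg_sub]
      exact (dvd_neg).mpr h

theorem logHeight_pt (K : Type*) [Field K] [NumberField K] (hb : ∀ l, 0 < b l)
    (hab : ∀ l, b l < a l) (hcop : ∀ l l', Nat.Coprime (a l) (b l')) :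
    Height.logHeight (fun i => (pt a b i : K)) =
      Module.finrank ℚ K * ∑ l, Real.log (a l) := by
  have h0 : 0 < pt a b 0 := by
    rw [pt_zero]
    exact Finset.prod_pos fun l _ => by have := hb l; have := hab l; omega
  rw [logHeight_eq (pt a b) 0 1 (pt_isCoprime hcop) h0 (pt_abs_le hb hab), pt_zero]
  congr 1
  push_cast
  rw [Real.log_prod fun l _ => by
    have h1 := hb l
    have h2 := hab l
    have : a l ≠ 0 := by omega
    exact_mod_cast this]

theorem rad_pt_le (K : Type*) [Field K] [NumberField K] (hb : ∀ l, 0 < b l)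
    (hab : ∀ l, b l < a l) (k : ℕ) (hk : ∀ l, 2 ^ k ∣ a l - b l) (P : Finset ℕ)
    (hP : ∀ q ∈ P, q.Prime) (hPa : ∀ l, ∀ q : ℕ, q.Prime → q ∣ a l → q ∈ P)
    (hPb : ∀ l, ∀ q : ℕ, q.Prime → q ∣ b l → q ∈ P) :
    (∑ᶠ v ∈ badPrimes K (fun i => (pt a b i : K)), Real.log (Ideal.absNorm v.asIdeal)) ≤
      Module.finrank ℚ K * (∑ q ∈ P, Real.log q + Real.log 2 +
        ∑ l, (Real.log (a l) - k * Real.log 2)) := by
  classical
  have hc : ∀ l, ∃ c : ℕ, a l - b l = 2 ^ k * c := fun l => hk l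
  choose c hc using hc
  have hc0 : ∀ l, c l ≠ 0 := by
    intro l h
    have h1 := hc l
    have h2 := hab l
    rw [h, mul_zero] at h1
    omega
  set R : Finset ℕ := P ∪ ({2} ∪ Finset.univ.biUnion fun l => (c l).primeFactors) with hR
  have hRp : ∀ q ∈ R, q.Prime := by
    intro q hq
    rw [hR, mem_union, mem_union, mem_singleton, mem_biUnion] at hq
    rcases hq with hq | rfl | ⟨l, _, hq⟩
    · exact hP q hq
    · exact Nat.prime_two
    · exact Nat.prime_of_mem_primeFactors hq
  have hRd : ∀ q : ℕ, q.Prime → ∀ i, (q : ℤ) ∣ pt a b i → q ∈ R := by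
    intro q hq i hqi
    rw [hR, mem_union, mem_union, mem_singleton, mem_biUnion]
    rcases prime_dvd_pt hq i hqi with ⟨l, hl | hl⟩ | ⟨l, hl⟩
    · exact Or.inl (hPa l q hq hl)
    · exact Or.inl (hPb l q hq hl)
    · have h1 : q ∣ a l - b l := by
        have h2 : ((a l - b l : ℕ) : ℤ) = (a l : ℤ) - b l := by
          rw [Nat.cast_sub (hab l).le]
        rw [← h2] at hl
        exact Int.natCast_dvd_natCast.mp hl
      rw [hc l] at h1
      rcases hq.dvd_mul.mp h1 with h3 | h3
      · exact Or.inr (Or.inl ((Nat.prime_dvd_prime_iff_eq hq Nat.prime_two).mp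
          (hq.dvd_of_dvd_pow h3)))
      · exact Or.inr (Or.inr ⟨l, mem_univ _, Nat.mem_primeFactors.mpr ⟨hq, h3, hc0 l⟩⟩)
  refine (rad_le (K := K) (pt a b) (pt_ne_zero hb hab) R hRp hRd).trans ?_
  refine mul_le_mul_of_nonneg_left ?_ (Nat.cast_nonneg _)
  have hnn : ∀ q ∈ R, 0 ≤ Real.log q := fun q hq =>
    Real.log_nonneg (by exact_mod_cast (hRp q hq).one_lt.le)
  have hnn' : ∀ s ⊆ R, 0 ≤ ∑ q ∈ s, Real.log q := fun s hs =>
    Finset.sum_nonneg fun q hq => hnn q (hs hq)
  have hun : ∀ (s t : Finset ℕ), (∀ q ∈ s ∪ t, 0 ≤ Real.log q) →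
      ∑ q ∈ s ∪ t, Real.log q ≤ ∑ q ∈ s, Real.log q + ∑ q ∈ t, Real.log q := by
    intro s t hst
    rw [← Finset.sum_union_inter]
    have : 0 ≤ ∑ q ∈ s ∩ t, Real.log q := Finset.sum_nonneg fun q hq =>
      hst q (mem_union_left _ (mem_inter.mp hq).1)
    linarith
  have h1 := hun P ({2} ∪ Finset.univ.biUnion fun l => (c l).primeFactors) hnn
  have h2 := hun {2} (Finset.univ.biUnion fun l => (c l).primeFactors)
    fun q hq => hnn q (mem_union_right _ hq)
  rw [Finset.sum_singleton, Nat.cast_ofNat] at h2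
  have hbi : ∀ s : Finset (Fin m), ∑ q ∈ s.biUnion (fun l => (c l).primeFactors), Real.log q ≤
      ∑ l ∈ s, (Real.log (a l) - k * Real.log 2) := by
    intro s
    induction s using Finset.induction_on with
    | empty => simp
    | insert l s hl ih =>
      rw [Finset.biUnion_insert, Finset.sum_insert hl]
      refine (hun _ _ ?_).trans (add_le_add ?_ ih)
      · intro q hq
        rw [mem_union, mem_biUnion] at hq
        have hqp : q.Prime := by
          rcases hq with hq | ⟨l', _, hq⟩ <;> exact Nat.prime_of_mem_primeFactors hq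
        exact Real.log_nonneg (by exact_mod_cast hqp.one_lt.le)
      · have h3 : ∑ q ∈ (c l).primeFactors, Real.log q ≤ Real.log (c l) := by
          rw [← Real.log_prod fun q hq => by
            exact_mod_cast (Nat.prime_of_mem_primeFactors hq).ne_zero]
          refine Real.log_le_log ?_ ?_
          · exact Finset.prod_pos fun q hq => by
              exact_mod_cast (Nat.prime_of_mem_primeFactors hq).pos
          · have h3' := Nat.le_of_dvd (Nat.pos_of_ne_zero (hc0 l)) (Nat.prod_primeFactors_dvd (c l))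
            rw [← Nat.cast_prod]
            exact Nat.cast_le.mpr h3'
        refine h3.trans ?_
        have h4 : (2 : ℝ) ^ k * c l ≤ a l := by
          have h5 : 2 ^ k * c l ≤ a l := by
            rw [← hc l]; exact Nat.sub_le _ _
          exact_mod_cast h5
        have hc' : (0 : ℝ) < c l := by exact_mod_cast Nat.pos_of_ne_zero (hc0 l)
        have h6 := Real.log_le_log (by positivity) h4
        rw [Real.log_mul (by positivity) hc'.ne', Real.log_pow] at h6
        linarith
  have h3 := hbi Finset.univ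
  linarith

open MvPolynomial in
theorem eval_pt_ne_zero {K : Type*} [Field K] [CharZero K] {F : MvPolynomial (Fin (m + 2)) K}
    {d : ℕ} (hF : F.IsHomogeneous d) (hb : ∀ l, 0 < b l)
    (h : eval (fun l => (a l : K) / (b l : K)) (pull F) ≠ 0) :
    eval (fun i => (pt a b i : K)) F ≠ 0 := by
  have hb' : ∀ l, (b l : K) ≠ 0 := fun l => by
    have := hb l
    exact_mod_cast (by omega : b l ≠ 0)
  have h1 : (fun i => (pt a b i : K)) = fun i => (∏ l, (b l : K)) *
      zOf (tau fun l => (a l : K) / (b l : K)) i := by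
    funext i
    rw [pt]
    have h2 := zOf_map (Int.castRingHom K)
      (mix (fun l => (a l : ℤ)) (fun l => (b l : ℤ))) i
    rw [eq_intCast] at h2
    rw [h2, ← zOf_mul]
    congr 1
    funext j
    rw [mix_map]
    simp only [eq_intCast, Int.cast_natCast]
    exact mix_eq _ _ hb' j
  rw [h1, eval_mul_of_homogeneous hF, ← eval_pull]
  exact mul_ne_zero (pow_ne_zero _ (Finset.prod_ne_zero_iff.mpr fun l _ => hb' l)) h

end

end Pool.Agent.H7.ABCD
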