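import Pool.Agent.H7.ABCD.Asymp
import Pool.Agent.H7.ABCD.Point

/-!
# Main theorem: secondary term in the `n`-term abc inequality
-/

open NumberField Finset MvPolynomial

namespace Pool.Agent.H7.ABCD

theorem main (m : ℕ) (hm : 1 ≤ m) (K : Type*) [Field K] [NumberField K]
    (F : MvPolynomial (Fin (m + 2)) K) (d : ℕ) (hF : F.IsHomogeneous d)
    (hH : ∃ x : Fin (m + 2) → K, ∑ j, x j = 0 ∧ eval x F ≠ 0) (B : ℝ) :
    ∃ z : Fin (m + 2) → ℤ, (∀ i, z i ≠ 0) ∧ ∑ i, z i = 0 ∧ eval (fun i => (z i : K)) F ≠ 0 ∧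
      B ≤ Height.logHeight (fun i => (z i : K)) / Module.finrank ℚ K ∧
      (∑ᶠ v ∈ badPrimes K (fun i => (z i : K)), Real.log (Ideal.absNorm v.asIdeal)) /
          Module.finrank ℚ K +
        (1 / 6) * ((Height.logHeight (fun i => (z i : K)) / Module.finrank ℚ K) ^
            ((m : ℝ) / (m + 1)) /
          Real.log (Height.logHeight (fun i => (z i : K)) / Module.finrank ℚ K)) ≤
        Height.logHeight (fun i => (z i : K)) / Module.finrank ℚ K := by
  classical
  have hG := pull_ne_zero hF hH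
  set L : ℕ := (pull F).totalDegree + 1 with hL
  obtain ⟨P, E, k, hP, hN, hfin⟩ := exists_params m hm L (by omega) B
  obtain ⟨S, hScard, hS, hScop, hSinj⟩ := exists_pairs (p := fun i : {q // q ∈ P} => (i : ℕ))
    (fun i => (hP i i.2).1) (fun i => (hP i i.2).2) Subtype.val_injective E k L hN
  -- ratios
  have hne : ∀ x ∈ S, (x.1 : K) ≠ 0 ∧ (x.2 : K) ≠ 0 := by
    intro x hx
    have h1 := (hS x hx).1
    have h2 := (hS x hx).2.1
    exact ⟨by exact_mod_cast (by omega : x.1 ≠ 0), by exact_mod_cast (by omega : x.2 ≠ 0)⟩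
  have hinj : Set.InjOn (fun x : ℕ × ℕ => (x.1 : K) / (x.2 : K)) S := by
    intro x hx y hy hxy
    simp only at hxy
    rw [div_eq_div_iff (hne x hx).2 (hne y hy).2] at hxy
    exact hSinj x hx y hy (by exact_mod_cast hxy)
  obtain ⟨s, hs, hsG⟩ := exists_grid hG (S.image fun x : ℕ × ℕ => (x.1 : K) / (x.2 : K)) (by
    rw [card_image_of_injOn hinj]; omega)
  have hs' : ∀ l, ∃ x ∈ S, (x.1 : K) / (x.2 : K) = s l := fun l => mem_image.mp (hs l)
  choose x hxS hxs using hs'
  set a : Fin m → ℕ := fun l => (x l).1 with ha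
  set b : Fin m → ℕ := fun l => (x l).2 with hb
  have hb0 : ∀ l, 0 < b l := fun l => (hS _ (hxS l)).1
  have hab : ∀ l, b l < a l := fun l => (hS _ (hxS l)).2.1
  have hcop : ∀ l l', Nat.Coprime (a l) (b l') := fun l l' => hScop _ (hxS l) _ (hxS l')
  have hk : ∀ l, 2 ^ k ∣ a l - b l := fun l => (hS _ (hxS l)).2.2.1
  have hle : ∀ l, a l ≤ pr (fun i : {q // q ∈ P} => (i : ℕ)) E := fun l =>
    (hS _ (hxS l)).2.2.2.1
  have hPa : ∀ l, ∀ q : ℕ, q.Prime → q ∣ a l → q ∈ P := fun l q hq hd => by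
    obtain ⟨i, hi⟩ := (hS _ (hxS l)).2.2.2.2.1 q hq hd
    rw [hi]; exact i.2
  have hPb : ∀ l, ∀ q : ℕ, q.Prime → q ∣ b l → q ∈ P := fun l q hq hd => by
    obtain ⟨i, hi⟩ := (hS _ (hxS l)).2.2.2.2.2 q hq hd
    rw [hi]; exact i.2
  have hdeg : (0 : ℝ) < Module.finrank ℚ K := by exact_mod_cast Module.finrank_pos
  have hheight : Height.logHeight (fun i => (pt a b i : K)) / Module.finrank ℚ K =
      ∑ l, Real.log (a l) := by
    rw [logHeight_pt K hb0 hab hcop]
    field_simp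
  set h : ℝ := ∑ l, Real.log (a l) with hh
  set rd : ℝ := (∑ᶠ v ∈ badPrimes K (fun i => (pt a b i : K)),
    Real.log (Ideal.absNorm v.asIdeal)) / Module.finrank ℚ K with hrd
  have hrad : rd ≤ h - (m * (k * Real.log 2) - Real.log 2 - ∑ q ∈ P, Real.log q) := by
    have h1 := rad_pt_le K hb0 hab k hk P (fun q hq => (hP q hq).1) hPa hPb
    rw [hrd, div_le_iff₀ hdeg]
    refine h1.trans (le_of_eq ?_)
    rw [Finset.sum_sub_distrib, Finset.sum_const, card_univ, Fintype.card_fin, nsmul_eq_mul, hh]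
    ring
  have hrad0 : 0 ≤ rd := by
    refine div_nonneg (finsum_nonneg fun v => finsum_nonneg fun _ => ?_) hdeg.le
    exact Real.log_natCast_nonneg _
  have hhle : h ≤ m * Real.log (pr (fun i : {q // q ∈ P} => (i : ℕ)) E) := by
    have h1 : ∀ l ∈ (univ : Finset (Fin m)), Real.log (a l) ≤
        Real.log (pr (fun i : {q // q ∈ P} => (i : ℕ)) E) := fun l _ =>
      Real.log_le_log (by have := hb0 l; have := hab l; exact_mod_cast (by omega : 0 < a l))
        (by exact_mod_cast hle l)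
    refine (Finset.sum_le_sum h1).trans (le_of_eq ?_)
    rw [Finset.sum_const, card_univ, Fintype.card_fin, nsmul_eq_mul]
  obtain ⟨hB, hgain⟩ := hfin h hhle (by linarith)
  refine ⟨pt a b, pt_ne_zero hb0 hab, sum_zOf _, ?_, ?_, ?_⟩
  · refine eval_pt_ne_zero hF hb0 ?_
    have : (fun l => (a l : K) / (b l : K)) = s := funext hxs
    rw [this]; exact hsG
  · rw [hheight]; exact hB
  · rw [hheight]; linarith

end Pool.Agent.H7.ABCD
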