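import Mathlib

/-!
# Sign-coherent congruences between smooth numbers
-/

open Finset

namespace Pool.Agent.H7.ABCD

variable {ι : Type*} [Fintype ι]

/-- `∏ p_i ^ v_i`. -/
def pr (p : ι → ℕ) (v : ι → ℕ) : ℕ := ∏ i, p i ^ v i

theorem pr_pos {p : ι → ℕ} (hp : ∀ i, (p i).Prime) (v : ι → ℕ) : 0 < pr p v :=
  Finset.prod_pos fun i _ => pow_pos (hp i).pos _

theorem pr_factorization [DecidableEq ι] {p : ι → ℕ} (hp : ∀ i, (p i).Prime)
    (hinj : Function.Injective p) (v : ι → ℕ) (j : ι) : (pr p v).factorization (p j) = v j := by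
  rw [pr, Nat.factorization_prod fun i _ => (pow_pos (hp i).pos _).ne']
  rw [Finsupp.finsetSum_apply, Finset.sum_eq_single j]
  · rw [(hp j).factorization_pow]; simp
  · intro i _ hij
    rw [(hp i).factorization_pow, Finsupp.single_apply, if_neg]
    exact fun h => hij (hinj h)
  · intro h; exact absurd (mem_univ j) h

theorem pr_injective [DecidableEq ι] {p : ι → ℕ} (hp : ∀ i, (p i).Prime)
    (hinj : Function.Injective p) : Function.Injective (pr p) := by
  intro v w h
  funext j
  rw [← pr_factorization hp hinj v j, ← pr_factorization hp hinj w j, h]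

theorem pr_mul (p : ι → ℕ) (v w : ι → ℕ) : pr p v * pr p w = pr p (fun i => v i + w i) := by
  rw [pr, pr, pr, ← Finset.prod_mul_distrib]
  exact Finset.prod_congr rfl fun i _ => (pow_add _ _ _).symm

theorem pr_sub_mul_min (p : ι → ℕ) (v w : ι → ℕ) :
    pr p (fun i => v i - w i) * pr p (fun i => min (v i) (w i)) = pr p v := by
  rw [pr_mul]
  congr 1
  funext i
  omega

theorem exists_index_of_prime_dvd_pr {p : ι → ℕ} (hp : ∀ i, (p i).Prime) {v : ι → ℕ} {q : ℕ}
    (hq : q.Prime) (h : q ∣ pr p v) : ∃ i, q = p i ∧ v i ≠ 0 := by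
  rw [pr, hq.prime.dvd_finsetProd_iff] at h
  obtain ⟨i, _, hi⟩ := h
  refine ⟨i, (Nat.prime_dvd_prime_iff_eq hq (hp i)).mp (hq.dvd_of_dvd_pow hi), ?_⟩
  rintro h0
  rw [h0, pow_zero] at hi
  exact hq.one_lt.ne' (Nat.dvd_one.mp hi)

/-- Pigeonhole: many pairs `(a, b)` of smooth numbers with `a ≡ b` modulo `2 ^ k`, with the primes
of all the `a` disjoint from the primes of all the `b`. -/
theorem exists_pairs [DecidableEq ι] {p : ι → ℕ} (hp : ∀ i, (p i).Prime) (hodd : ∀ i, p i ≠ 2)
    (hinj : Function.Injective p) (E : ι → ℕ) (k L : ℕ)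
    (hN : 2 ^ k * (2 ^ (Fintype.card ι + 1) * L) < ∏ i, (E i + 1)) :
    ∃ S : Finset (ℕ × ℕ), L ≤ S.card ∧
      (∀ x ∈ S, 0 < x.2 ∧ x.2 < x.1 ∧ 2 ^ k ∣ x.1 - x.2 ∧ x.1 ≤ pr p E ∧
        (∀ q : ℕ, q.Prime → q ∣ x.1 → ∃ i, q = p i) ∧
        (∀ q : ℕ, q.Prime → q ∣ x.2 → ∃ i, q = p i)) ∧
      (∀ x ∈ S, ∀ y ∈ S, Nat.Coprime x.1 y.2) ∧
      (∀ x ∈ S, ∀ y ∈ S, x.1 * y.2 = y.1 * x.2 → x = y) := by
  classical
  set B : Finset (ι → ℕ) := Fintype.piFinset fun i => range (E i + 1) with hB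
  have hBcard : B.card = ∏ i, (E i + 1) := by
    rw [hB, Fintype.card_piFinset]
    exact Finset.prod_congr rfl fun i _ => card_range _
  have hmaps : ∀ v ∈ B, pr p v % 2 ^ k ∈ range (2 ^ k) := fun v _ =>
    mem_range.mpr (Nat.mod_lt _ (by positivity))
  obtain ⟨y, -, hy⟩ := Finset.exists_lt_card_fiber_of_mul_lt_card_of_maps_to hmaps
    (n := 2 ^ (Fintype.card ι + 1) * L) (by rw [card_range, hBcard]; exact hN)
  set C := {v ∈ B | pr p v % 2 ^ k = y} with hC
  have hCne : C.Nonempty := by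
    rw [← card_pos]; omega
  obtain ⟨v0, hv0⟩ := hCne
  have hC'card : 2 ^ (Fintype.card ι + 1) * L ≤ (C.erase v0).card := by
    rw [card_erase_of_mem hv0]; omega
  obtain ⟨pt, -, hpt⟩ := Finset.exists_le_card_fiber_of_mul_le_card_of_maps_to
    (s := C.erase v0) (t := (Finset.univ : Finset ((ι → Bool) × Bool)))
    (f := fun v => ((fun i => decide (v0 i ≤ v i)), decide (pr p v0 < pr p v)))
    (n := L) (fun v _ => mem_univ _) univ_nonempty (by
      rw [card_univ, Fintype.card_prod, Fintype.card_fun, Fintype.card_bool, ← pow_succ]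
      exact hC'card)
  set D := {v ∈ C.erase v0 | ((fun i => decide (v0 i ≤ v i)), decide (pr p v0 < pr p v)) = pt}
    with hD
  -- basic facts
  have hDC : ∀ v ∈ D, v ∈ C ∧ v ≠ v0 := by
    intro v hv
    rw [hD, mem_filter, mem_erase] at hv
    exact ⟨hv.1.2, hv.1.1⟩
  have hle : ∀ v ∈ C, ∀ i, v i ≤ E i := by
    intro v hv i
    rw [hC, mem_filter, hB, Fintype.mem_piFinset] at hv
    have := mem_range.mp (hv.1 i)
    omega
  have hpat : ∀ v ∈ D, ∀ w ∈ D, ∀ i, v0 i ≤ v i ↔ v0 i ≤ w i := by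
    intro v hv w hw i
    rw [hD, mem_filter] at hv hw
    have h1 := congrArg (fun t => t.1 i) (hv.2.trans hw.2.symm)
    simpa using h1
  have hlt : ∀ v ∈ D, ∀ w ∈ D, pr p v0 < pr p v ↔ pr p v0 < pr p w := by
    intro v hv w hw
    rw [hD, mem_filter] at hv hw
    have h1 := congrArg (fun t => t.2) (hv.2.trans hw.2.symm)
    simpa using h1
  have hmod : ∀ v ∈ D, pr p (fun i => v i - v0 i) ≡ pr p (fun i => v0 i - v i) [MOD 2 ^ k] := by
    intro v hv
    have h1 : pr p v ≡ pr p v0 [MOD 2 ^ k] := by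
      have h2 := (hDC v hv).1
      rw [hC, mem_filter] at h2 hv0
      exact h2.2.trans hv0.2.symm
    rw [← pr_sub_mul_min p v v0, ← pr_sub_mul_min p v0 v] at h1
    have h3 : (fun i => min (v0 i) (v i)) = fun i => min (v i) (v0 i) := by
      funext i; exact min_comm _ _
    rw [h3] at h1
    refine Nat.ModEq.cancel_right_of_coprime ?_ h1
    refine Nat.Coprime.pow_left _ ?_
    rw [pr]
    refine Nat.Coprime.prod_right fun i _ => Nat.Coprime.pow_right _ ?_
    exact (Nat.coprime_primes Nat.prime_two (hp i)).mpr (hodd i).symm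
  have hcop : ∀ v ∈ D, ∀ w ∈ D, Nat.Coprime (pr p fun i => v i - v0 i)
      (pr p fun i => v0 i - w i) := by
    intro v hv w hw
    rw [pr, pr]
    refine Nat.Coprime.prod_left fun i _ => Nat.Coprime.prod_right fun j _ => ?_
    by_cases hij : i = j
    · subst hij
      by_cases h : v0 i ≤ v i
      · have h' := (hpat v hv w hw i).mp h
        have : v0 i - w i = 0 := by omega
        rw [this]; simp
      · have : v i - v0 i = 0 := by omega
        rw [this]; simp
    · exact Nat.Coprime.pow _ _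
        ((Nat.coprime_primes (hp i) (hp j)).mpr fun h => hij (hinj h))
  have hrat : ∀ v ∈ D, ∀ w ∈ D, pr p (fun i => v i - v0 i) * pr p (fun i => v0 i - w i) =
      pr p (fun i => w i - v0 i) * pr p (fun i => v0 i - v i) → v = w := by
    intro v _ w _ h
    rw [pr_mul, pr_mul] at h
    have h1 := pr_injective hp hinj h
    funext i
    have h2 : v i - v0 i + (v0 i - w i) = w i - v0 i + (v0 i - v i) := congrFun h1 i
    omega
  have hne : ∀ v ∈ D, pr p v ≠ pr p v0 := fun v hv h => (hDC v hv).2 (pr_injective hp hinj h)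
  have hltab : ∀ v ∈ D, (pr p v0 < pr p v ↔
      pr p (fun i => v0 i - v i) < pr p (fun i => v i - v0 i)) := by
    intro v _
    have h3 : (fun i => min (v0 i) (v i)) = fun i => min (v i) (v0 i) := by
      funext i; exact min_comm _ _
    conv_lhs => rw [← pr_sub_mul_min p v v0, ← pr_sub_mul_min p v0 v, h3]
    exact Nat.mul_lt_mul_right (pr_pos hp _)
  have hneab : ∀ v ∈ D, pr p (fun i => v i - v0 i) ≠ pr p (fun i => v0 i - v i) := by
    intro v hv h
    apply hne v hv
    rw [← pr_sub_mul_min p v v0, ← pr_sub_mul_min p v0 v, h]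
    congr 2
    funext i; exact min_comm _ _
  have hbd : ∀ v ∈ D, pr p (fun i => v i - v0 i) ≤ pr p E := by
    intro v hv
    refine Finset.prod_le_prod' fun i _ => Nat.pow_le_pow_right (hp i).pos ?_
    have := hle v (hDC v hv).1 i
    change v i - v0 i ≤ E i
    omega
  have hbd0 : ∀ v ∈ D, pr p (fun i => v0 i - v i) ≤ pr p E := by
    intro v hv
    refine Finset.prod_le_prod' fun i _ => Nat.pow_le_pow_right (hp i).pos ?_
    have := hle v0 hv0 i
    change v0 i - v i ≤ E i
    omega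
  rcases D.eq_empty_or_nonempty with hDe | ⟨w, hw⟩
  · refine ⟨∅, ?_, by simp, by simp, by simp⟩
    rw [hDe] at hpt
    simpa using hpt
  by_cases hcase : pr p v0 < pr p w
  · -- `a > b`
    refine ⟨D.image fun v => (pr p fun i => v i - v0 i, pr p fun i => v0 i - v i), ?_, ?_, ?_, ?_⟩
    · rw [card_image_of_injOn]
      · exact hpt
      · intro v hv w' hw' h
        simp only [Prod.mk.injEq] at h
        refine hrat v hv w' hw' ?_
        rw [h.1, h.2]
    · intro x hx
      obtain ⟨v, hv, rfl⟩ := mem_image.mp hx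
      have h1 : pr p (fun i => v0 i - v i) < pr p (fun i => v i - v0 i) :=
        (hltab v hv).mp ((hlt v hv w hw).mpr hcase)
      refine ⟨pr_pos hp _, h1, ?_, hbd v hv, ?_, ?_⟩
      · exact (Nat.modEq_iff_dvd' h1.le).mp (hmod v hv).symm
      · intro q hq hd
        obtain ⟨i, hi, _⟩ := exists_index_of_prime_dvd_pr hp hq hd
        exact ⟨i, hi⟩
      · intro q hq hd
        obtain ⟨i, hi, _⟩ := exists_index_of_prime_dvd_pr hp hq hd
        exact ⟨i, hi⟩
    · intro x hx x' hx'
      obtain ⟨v, hv, rfl⟩ := mem_image.mp hx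
      obtain ⟨v', hv', rfl⟩ := mem_image.mp hx'
      exact hcop v hv v' hv'
    · intro x hx x' hx' h
      obtain ⟨v, hv, rfl⟩ := mem_image.mp hx
      obtain ⟨v', hv', rfl⟩ := mem_image.mp hx'
      rw [hrat v hv v' hv' h]
  · -- `a < b`
    refine ⟨D.image fun v => (pr p fun i => v0 i - v i, pr p fun i => v i - v0 i), ?_, ?_, ?_, ?_⟩
    · rw [card_image_of_injOn]
      · exact hpt
      · intro v hv w' hw' h
        simp only [Prod.mk.injEq] at h
        refine hrat v hv w' hw' ?_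
        rw [h.1, h.2]
    · intro x hx
      obtain ⟨v, hv, rfl⟩ := mem_image.mp hx
      have h0 : ¬ pr p (fun i => v0 i - v i) < pr p (fun i => v i - v0 i) := fun h =>
        hcase ((hlt v hv w hw).mp ((hltab v hv).mpr h))
      have h1 : pr p (fun i => v i - v0 i) < pr p (fun i => v0 i - v i) :=
        lt_of_le_of_ne (not_lt.mp h0) (hneab v hv)
      refine ⟨pr_pos hp _, h1, ?_, hbd0 v hv, ?_, ?_⟩
      · exact (Nat.modEq_iff_dvd' h1.le).mp (hmod v hv)
      · intro q hq hd
        obtain ⟨i, hi, _⟩ := exists_index_of_prime_dvd_pr hp hq hd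
        exact ⟨i, hi⟩
      · intro q hq hd
        obtain ⟨i, hi, _⟩ := exists_index_of_prime_dvd_pr hp hq hd
        exact ⟨i, hi⟩
    · intro x hx x' hx'
      obtain ⟨v, hv, rfl⟩ := mem_image.mp hx
      obtain ⟨v', hv', rfl⟩ := mem_image.mp hx'
      exact (hcop v' hv' v hv).symm
    · intro x hx x' hx' h
      obtain ⟨v, hv, rfl⟩ := mem_image.mp hx
      obtain ⟨v', hv', rfl⟩ := mem_image.mp hx'
      have := hrat v' hv' v hv (by
        simp only at h
        rw [mul_comm (pr p fun i => v' i - v0 i), mul_comm (pr p fun i => v i - v0 i)]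
        exact h)
      rw [this]

end Pool.Agent.H7.ABCD
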