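import Mathlib

/-!
# A birational parametrisation of the hyperplane `∑ Z_i = 0`
-/

open Finset

namespace Pool.Agent.H7.ABCD

/-- The point `(T_0, -T_m, T_1 - T_0, …, T_m - T_{m-1})` of the hyperplane. -/
def zOf {R : Type*} [CommRing R] {m : ℕ} (T : Fin (m + 1) → R) : Fin (m + 2) → R :=
  Fin.cons (T 0) (Fin.cons (-T (Fin.last m)) (fun i : Fin m => T i.succ - T i.castSucc))

@[simp] theorem zOf_zero {R : Type*} [CommRing R] {m : ℕ} (T : Fin (m + 1) → R) :
    zOf T 0 = T 0 := rfl

@[simp] theorem zOf_one {R : Type*} [CommRing R] {m : ℕ} (T : Fin (m + 1) → R) :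
    zOf T 1 = -T (Fin.last m) := rfl

@[simp] theorem zOf_succ_succ {R : Type*} [CommRing R] {m : ℕ} (T : Fin (m + 1) → R) (i : Fin m) :
    zOf T i.succ.succ = T i.succ - T i.castSucc := rfl

theorem telescope {R : Type*} [CommRing R] (m : ℕ) (T : Fin (m + 1) → R) :
    ∑ i : Fin m, (T i.succ - T i.castSucc) = T (Fin.last m) - T 0 := by
  induction m with
  | zero => simp
  | succ m ih =>
    rw [Fin.sum_univ_castSucc]
    have h := ih (fun i => T i.castSucc)
    have h2 : ∀ i : Fin m, T i.castSucc.succ = T i.succ.castSucc := fun i => rfl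
    simp only [h2, h]
    rw [Fin.succ_last, Fin.castSucc_zero]
    ring

theorem sum_zOf {R : Type*} [CommRing R] {m : ℕ} (T : Fin (m + 1) → R) : ∑ j, zOf T j = 0 := by
  rw [Fin.sum_univ_succ, Fin.sum_univ_succ]
  have h : ∀ i : Fin m, zOf T i.succ.succ = T i.succ - T i.castSucc := fun i => rfl
  simp only [h, telescope]
  rw [zOf_zero, show (Fin.succ (0 : Fin (m + 1))) = 1 from rfl, zOf_one]
  ring

/-- Case distinction for a statement about all coordinates of a point. -/
theorem forall_fin_two {m : ℕ} {q : Fin (m + 2) → Prop} (h0 : q 0) (h1 : q 1)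
    (h2 : ∀ i : Fin m, q i.succ.succ) (j : Fin (m + 2)) : q j := by
  refine Fin.cases h0 (fun j => ?_) j
  refine Fin.cases h1 (fun j => h2 j) j

theorem zOf_map {R S : Type*} [CommRing R] [CommRing S] (f : R →+* S) {m : ℕ}
    (T : Fin (m + 1) → R) (j : Fin (m + 2)) : f (zOf T j) = zOf (fun i => f (T i)) j := by
  refine forall_fin_two (q := fun j => f (zOf T j) = zOf (fun i => f (T i)) j) rfl ?_ ?_ j
  · simp
  · intro i; simp

theorem zOf_mul {R : Type*} [CommRing R] {m : ℕ} (c : R) (T : Fin (m + 1) → R) (j : Fin (m + 2)) :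
    zOf (fun i => c * T i) j = c * zOf T j := by
  refine forall_fin_two (q := fun j => zOf (fun i => c * T i) j = c * zOf T j) rfl ?_ ?_ j
  · simp
  · intro i; simp; ring

theorem exists_zOf {R : Type*} [CommRing R] {m : ℕ} (x : Fin (m + 2) → R) (hx : ∑ j, x j = 0) :
    ∃ T : Fin (m + 1) → R, zOf T = x := by
  refine ⟨fun i => x 0 + ∑ l : Fin m, if l.val < i.val then x l.succ.succ else 0, ?_⟩
  funext j
  refine forall_fin_two (q := fun j => zOf (fun i => x 0 + ∑ l : Fin m,
    if l.val < i.val then x l.succ.succ else 0) j = x j) ?_ ?_ ?_ j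
  · simp
  · rw [Fin.sum_univ_succ, Fin.sum_univ_succ] at hx
    have h : ∀ l : Fin m, (if l.val < (Fin.last m).val then x l.succ.succ else 0) =
        x l.succ.succ := fun l => if_pos l.isLt
    simp only [zOf_one, h]
    have h1 : x (Fin.succ (0 : Fin (m + 1))) = x 1 := rfl
    rw [h1] at hx
    linear_combination -hx
  · intro i
    rw [zOf_succ_succ, add_sub_add_left_eq_sub, ← Finset.sum_sub_distrib,
      Finset.sum_eq_single i]
    · simp
    · intro l _ hl
      have hl' : l.val ≠ i.val := fun h => hl (Fin.ext h)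
      have e1 : (l.val < i.succ.val) ↔ (l.val < i.castSucc.val) := by
        rw [Fin.val_succ, Fin.val_castSucc]; omega
      simp only [e1, sub_self]
    · intro h; exact absurd (mem_univ i) h

/-- The tail products `s_i s_{i+1} ⋯ s_{m-1}`. -/
def tau {R : Type*} [CommRing R] {m : ℕ} (s : Fin m → R) (i : Fin (m + 1)) : R :=
  ∏ l : Fin m with i.val ≤ l.val, s l

theorem tau_map {R S : Type*} [CommRing R] [CommRing S] (f : R →+* S) {m : ℕ}
    (s : Fin m → R) (i : Fin (m + 1)) : f (tau s i) = tau (fun l => f (s l)) i := by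
  rw [tau, tau, map_prod]

/-- `b_0 ⋯ b_{i-1} a_i ⋯ a_{m-1}`. -/
def mix {R : Type*} [CommRing R] {m : ℕ} (a b : Fin m → R) (i : Fin (m + 1)) : R :=
  (∏ l : Fin m with l.val < i.val, b l) * ∏ l : Fin m with i.val ≤ l.val, a l

theorem mix_map {R S : Type*} [CommRing R] [CommRing S] (f : R →+* S) {m : ℕ}
    (a b : Fin m → R) (i : Fin (m + 1)) :
    f (mix a b i) = mix (fun l => f (a l)) (fun l => f (b l)) i := by
  rw [mix, mix, map_mul, map_prod, map_prod]

theorem mix_zero {R : Type*} [CommRing R] {m : ℕ} (a b : Fin m → R) :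
    mix a b 0 = ∏ l, a l := by
  simp [mix]

theorem mix_last {R : Type*} [CommRing R] {m : ℕ} (a b : Fin m → R) :
    mix a b (Fin.last m) = ∏ l, b l := by
  have h1 : (Finset.univ.filter fun l : Fin m => l.val < (Fin.last m).val) = Finset.univ :=
    Finset.filter_true_of_mem fun l _ => l.isLt
  have h2 : (Finset.univ.filter fun l : Fin m => (Fin.last m).val ≤ l.val) = ∅ :=
    Finset.filter_false_of_mem fun l _ => by simp
  rw [mix, h1, h2]; simp

theorem mix_eq {K : Type*} [Field K] {m : ℕ} (a b : Fin m → K) (hb : ∀ l, b l ≠ 0)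
    (i : Fin (m + 1)) : mix a b i = (∏ l, b l) * tau (fun l => a l / b l) i := by
  rw [mix, tau, Finset.prod_div_distrib,
    ← Finset.prod_filter_mul_prod_filter_not (Finset.univ : Finset (Fin m))
      (fun l => l.val < i.val) b]
  have h : (Finset.univ.filter fun l : Fin m => ¬ l.val < i.val) =
      Finset.univ.filter fun l : Fin m => i.val ≤ l.val := by
    ext l; simp
  rw [h]
  have hne : (∏ l : Fin m with i.val ≤ l.val, b l) ≠ 0 :=
    Finset.prod_ne_zero_iff.mpr fun l _ => hb l
  field_simp

theorem mix_sub {R : Type*} [CommRing R] {m : ℕ} (a b : Fin m → R) (i : Fin m) :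
    mix a b i.succ - mix a b i.castSucc =
      (∏ l : Fin m with l.val < i.val, b l) * (∏ l : Fin m with i.val < l.val, a l) *
        (b i - a i) := by
  have h1 : (Finset.univ.filter fun l : Fin m => l.val < i.succ.val) =
      insert i (Finset.univ.filter fun l : Fin m => l.val < i.val) := by
    ext l
    simp only [mem_filter, mem_univ, true_and, mem_insert, Fin.val_succ, Fin.ext_iff]
    omega
  have h2 : (Finset.univ.filter fun l : Fin m => i.succ.val ≤ l.val) =
      Finset.univ.filter fun l : Fin m => i.val < l.val := by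
    ext l
    simp only [mem_filter, mem_univ, true_and, Fin.val_succ]
    omega
  have h3 : (Finset.univ.filter fun l : Fin m => i.castSucc.val ≤ l.val) =
      insert i (Finset.univ.filter fun l : Fin m => i.val < l.val) := by
    ext l
    simp only [mem_filter, mem_univ, true_and, mem_insert, Fin.val_castSucc, Fin.ext_iff]
    omega
  have h4 : (Finset.univ.filter fun l : Fin m => l.val < i.castSucc.val) =
      Finset.univ.filter fun l : Fin m => l.val < i.val := rfl
  rw [mix, mix, h1, h2, h3, h4, Finset.prod_insert (by simp), Finset.prod_insert (by simp)]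
  ring

open MvPolynomial in
theorem eval_mul_of_homogeneous {R σ : Type*} [CommRing R] [Fintype σ] {F : MvPolynomial σ R}
    {d : ℕ} (hF : F.IsHomogeneous d) (c : R) (x : σ → R) :
    eval (fun i => c * x i) F = c ^ d * eval x F := by
  rw [eval_eq', eval_eq', Finset.mul_sum]
  refine Finset.sum_congr rfl fun e he => ?_
  have h1 : ∑ i, e i = d := by
    have h2 := hF (mem_support_iff.mp he)
    rw [← h2, Finsupp.weight_apply, Finsupp.sum_fintype _ _ (by simp)]
    simp
  simp only [mul_pow, Finset.prod_mul_distrib]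
  rw [Finset.prod_pow_eq_pow_sum, h1]
  ring

/-- The pull-back of a form to the parameters. -/
noncomputable def pull {K : Type*} [Field K] {m : ℕ} (F : MvPolynomial (Fin (m + 2)) K) :
    MvPolynomial (Fin m) K :=
  MvPolynomial.bind₁ (zOf (tau fun l => MvPolynomial.X l)) F

open MvPolynomial in
theorem eval_pull {K : Type*} [Field K] {m : ℕ} (F : MvPolynomial (Fin (m + 2)) K)
    (s : Fin m → K) : eval s (pull F) = eval (zOf (tau s)) F := by
  have h : ∀ j, (aeval s : MvPolynomial (Fin m) K →ₐ[K] K)
      (zOf (tau fun l => (X l : MvPolynomial (Fin m) K)) j) = zOf (tau s) j := by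
    intro j
    have h1 := zOf_map ((aeval s : MvPolynomial (Fin m) K →ₐ[K] K) : MvPolynomial (Fin m) K →+* K)
      (tau fun l => (X l : MvPolynomial (Fin m) K)) j
    refine h1.trans ?_
    congr 1
    funext i
    rw [tau_map]
    simp
  rw [← MvPolynomial.coe_aeval_eq_eval, ← MvPolynomial.coe_aeval_eq_eval, RingHom.coe_coe,
    RingHom.coe_coe, pull, aeval_bind₁]
  congr 2
  funext j
  exact h j

open MvPolynomial in
theorem pull_ne_zero {K : Type*} [Field K] [Infinite K] {m : ℕ}
    {F : MvPolynomial (Fin (m + 2)) K} {d : ℕ} (hF : F.IsHomogeneous d)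
    (hH : ∃ x : Fin (m + 2) → K, ∑ j, x j = 0 ∧ eval x F ≠ 0) : pull F ≠ 0 := by
  classical
  -- the pull back to the `T` coordinates is nonzero
  set Q : MvPolynomial (Fin (m + 1)) K := bind₁ (zOf X) F with hQ
  have hQe : ∀ T : Fin (m + 1) → K, eval T Q = eval (zOf T) F := by
    intro T
    have h : ∀ j, (aeval T : MvPolynomial (Fin (m + 1)) K →ₐ[K] K)
        (zOf (X : Fin (m + 1) → MvPolynomial (Fin (m + 1)) K) j) = zOf T j := by
      intro j
      have h1 := zOf_map ((aeval T : MvPolynomial (Fin (m + 1)) K →ₐ[K] K) :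
        MvPolynomial (Fin (m + 1)) K →+* K) (X : Fin (m + 1) → MvPolynomial (Fin (m + 1)) K) j
      refine h1.trans ?_
      congr 1
      funext i
      simp
    rw [← MvPolynomial.coe_aeval_eq_eval, ← MvPolynomial.coe_aeval_eq_eval, RingHom.coe_coe,
      RingHom.coe_coe, hQ, aeval_bind₁]
    congr 2
    funext j
    exact h j
  have hQ0 : Q ≠ 0 := by
    obtain ⟨x, hx, hxF⟩ := hH
    obtain ⟨T, rfl⟩ := exists_zOf x hx
    intro h0
    apply hxF
    rw [← hQe, h0, map_zero]
  have hprod : Q * ∏ i : Fin (m + 1), X i ≠ 0 :=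
    mul_ne_zero hQ0 (Finset.prod_ne_zero_iff.mpr fun i _ => X_ne_zero i)
  obtain ⟨T, hT⟩ : ∃ T : Fin (m + 1) → K, eval T (Q * ∏ i : Fin (m + 1), X i) ≠ 0 := by
    by_contra hcon
    push Not at hcon
    exact hprod (MvPolynomial.funext fun T => by rw [hcon T, map_zero])
  rw [map_mul, map_prod] at hT
  have hTQ : eval T Q ≠ 0 := left_ne_zero_of_mul hT
  have hT0 : ∀ i, T i ≠ 0 := fun i => by
    have := Finset.prod_ne_zero_iff.mp (right_ne_zero_of_mul hT) i (mem_univ i)
    simpa using this
  intro h0
  have h1 := eval_pull F (fun l : Fin m => T l.castSucc / T l.succ)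
  rw [h0, map_zero] at h1
  have h2 : tau (fun l : Fin m => T l.castSucc / T l.succ) = fun i => (T (Fin.last m))⁻¹ * T i := by
    funext i
    refine Fin.reverseInduction ?_ ?_ i
    · have h2 : (Finset.univ.filter fun l : Fin m => (Fin.last m).val ≤ l.val) = ∅ :=
        Finset.filter_false_of_mem fun l _ => by simp
      rw [tau, h2, Finset.prod_empty, inv_mul_cancel₀ (hT0 _)]
    · intro i ih
      have h3 : (Finset.univ.filter fun l : Fin m => i.castSucc.val ≤ l.val) =
          insert i (Finset.univ.filter fun l : Fin m => i.succ.val ≤ l.val) := by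
        ext l
        simp only [mem_filter, mem_univ, true_and, mem_insert, Fin.val_castSucc, Fin.ext_iff,
          Fin.val_succ]
        omega
      rw [tau, h3, Finset.prod_insert (by simp)]
      rw [tau] at ih
      rw [ih]
      have := hT0 i.succ
      have := hT0 (Fin.last m)
      field_simp
  rw [h2] at h1
  have h3 : zOf (fun i => (T (Fin.last m))⁻¹ * T i) = fun j => (T (Fin.last m))⁻¹ * zOf T j :=
    funext fun j => zOf_mul _ _ j
  rw [h3, eval_mul_of_homogeneous hF] at h1
  exact (mul_ne_zero (pow_ne_zero d (inv_ne_zero (hT0 _))) (by rw [← hQe]; exact hTQ)) h1.symm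

open MvPolynomial in
/-- Some point of a large grid is not a zero of the pull back. -/
theorem exists_grid {K : Type*} [Field K] {m : ℕ} {G : MvPolynomial (Fin m) K} (hG : G ≠ 0)
    (S : Finset K) (hS : G.totalDegree < S.card) : ∃ s : Fin m → K, (∀ l, s l ∈ S) ∧
      eval s G ≠ 0 := by
  by_contra hcon
  push Not at hcon
  apply hG
  exact eq_zero_of_eval_zero_at_prod_finset G (fun _ => S)
    (fun i => lt_of_le_of_lt (degreeOf_le_totalDegree G i) hS) (fun x hx => hcon x hx)

end Pool.Agent.H7.ABCD
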